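import Pool.Agent.AT5.Stmts1
import Pool.Agent.Helper67_AT2.FXS
import Pool.Agent.Helper98_AT3.Fxs

/-!
# Squad AT5, row FX5 (helper46): the number of modular characters is at most the number of the
characters fixed by the power map
-/

set_option autoImplicit false

open scoped BigOperators

noncomputable section

namespace Pool.Agent.PP.T5.H46

open Pool.Agent.Helper51_AWC Pool.Agent.Helper79_WRA Pool.Agent.PP Pool.Agent.PP.KF
open Pool.Agent.PP.K9 Pool.Agent.PP.K9.H97 Pool.Agent.PP.H75 Pool.Agent.PP.T3 Pool.Agent.PP.T2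

attribute [local instance] Ideal.Quotient.field

section pow

variable {G : Type} [Group G]

theorem pow_pow_add (g : G) (N a b : ℕ) : (g ^ N ^ a) ^ N ^ b = g ^ N ^ (a + b) := by
  rw [← pow_mul, ← pow_add]

theorem per_mul {N R : ℕ} (h : ∀ g : G, g ^ N ^ R = g) (k : ℕ) (g : G) : g ^ N ^ (R * k) = g := by
  induction k with
  | zero => simp
  | succ k ih => rw [mul_add, mul_one, ← pow_pow_add, ih, h]

theorem reg_pow {ℓ N : ℕ} (h : ∀ g : G, Reg ℓ g → g ^ N = g) (j : ℕ) (g : G) (hg : Reg ℓ g) :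
    g ^ N ^ j = g := by
  induction j with
  | zero => simp
  | succ j ih => rw [← pow_pow_add, ih, pow_one, h g hg]

theorem conj_pow_pow {g y : G} {n : ℕ} (h : g * y * g⁻¹ = y ^ n) (k : ℕ) :
    g ^ k * y * (g ^ k)⁻¹ = y ^ n ^ k := by
  induction k with
  | zero => simp
  | succ k ih =>
    rw [pow_succ' g k, mul_inv_rev]
    have e : g * g ^ k * y * ((g ^ k)⁻¹ * g⁻¹) = g * (g ^ k * y * (g ^ k)⁻¹) * g⁻¹ := by group
    rw [e, ih]
    have e2 : g * y ^ n ^ k * g⁻¹ = (g * y * g⁻¹) ^ n ^ k := conj_pow.symm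
    rw [e2, h, ← pow_mul, ← pow_succ']

/-- the inverse of `j` modulo the period -/
theorem exists_inv {ℓ : ℕ} [hℓ : Fact ℓ.Prime] {r j : ℕ} (hr : 0 < r) (hj : ¬ ℓ ∣ j) :
    ∃ m k : ℕ, j * m = 1 + ℓ ^ r * k := by
  have hc : Nat.Coprime j (ℓ ^ r) :=
    Nat.Coprime.pow_right r ((hℓ.out.coprime_iff_not_dvd.2 hj).symm)
  have h1 : 1 < ℓ ^ r := Nat.one_lt_pow hr.ne' hℓ.out.one_lt
  obtain ⟨m, _, hm⟩ := Nat.exists_mul_mod_eq_one_of_coprime hc h1
  exact ⟨m, j * m / ℓ ^ r, by rw [← hm, Nat.mod_add_div]⟩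

theorem pow_inv_eq {N R j m k : ℕ} (h : ∀ g : G, g ^ N ^ R = g) (hm : j * m = 1 + R * k) (g : G) :
    g ^ N ^ (j * m) = g ^ N := by
  rw [hm, add_comm, ← pow_pow_add, per_mul h, pow_one]

/-- fixed points of a power of the power map -/
theorem fix_iff {ℓ : ℕ} [Fact ℓ.Prime] {N r j : ℕ} (hr : 0 < r) (hj : ¬ ℓ ∣ j)
    (h : ∀ g : G, g ^ N ^ ℓ ^ r = g) (χ : G → ℂ) :
    (∀ g, χ (g ^ N ^ j) = χ g) ↔ ∀ g, χ (g ^ N) = χ g := by
  constructor
  · intro h1
    obtain ⟨m, k, hm⟩ := exists_inv hr hj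
    have h2 : ∀ (m : ℕ) (g : G), χ (g ^ N ^ (j * m)) = χ g := by
      intro m
      induction m with
      | zero => intro g; simp
      | succ m ih =>
        intro g
        rw [mul_add, mul_one, ← pow_pow_add, h1, ih]
    intro g
    rw [← pow_inv_eq h hm g, h2]
  · intro h1
    induction j with
    | zero => simp
    | succ j _ =>
      have h2 : ∀ (m : ℕ) (g : G), χ (g ^ N ^ m) = χ g := by
        intro m
        induction m with
        | zero => intro g; simp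
        | succ m ih =>
          intro g
          rw [← pow_pow_add, pow_one, h1, ih]
      exact h2 _

theorem not_conj {ℓ : ℕ} [Fact ℓ.Prime] {N r j : ℕ} (hr : 0 < r) (hj : ¬ ℓ ∣ j)
    (h : ∀ g : G, g ^ N ^ ℓ ^ r = g) {y : G} (hy : ¬ ∃ g : G, g * y * g⁻¹ = y ^ N) (g : G) :
    g * y * g⁻¹ ≠ y ^ N ^ j := by
  intro h1
  obtain ⟨m, k, hm⟩ := exists_inv hr hj
  apply hy
  refine ⟨g ^ m, ?_⟩
  rw [conj_pow_pow h1 m, ← pow_mul, pow_inv_eq h hm]

end pow

section tww

variable {G : Type} [Group G] [Finite G] (M : Ideal (integralClosure ℤ ℂ)) [M.IsMaximal]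

theorem tw_ext (ℓ : ℕ) (C : Subgroup G) (e : G → FF M) (h : G) :
    tw M ℓ C (H75.ext0 C (fun t : C => e t)) h = tw M ℓ C e h := by
  have e1 : (fun t : C => H75.ext0 C (fun t : C => e t) t) = fun t : C => e t :=
    funext fun t => ext0_apply C (fun t : C => e t) t
  unfold tw kr
  rw [e1]

end tww

/-- the contribution of an `ℓ`-element `y ≠ 1` is a number `≥ 0` -/
theorem contr (fxy : T2.FxyStmt) (twy : TwyStmt) (cys : CysStmt) (ℓ : ℕ) [Fact ℓ.Prime]
    (M : Ideal (integralClosure ℤ ℂ)) [M.IsMaximal] (hM : (ℓ : integralClosure ℤ ℂ) ∈ M)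
    (G : Type) [Group G] [Finite G] (N : ℕ) (hN : N.Coprime (Nat.card G)) (r : ℕ) (hr : 0 < r)
    (hper : ∀ g : G, g ^ N ^ ℓ ^ r = g) (e : G → FF M) (he : IsIdem e) (y : G) (hy1 : y ≠ 1)
    (hy : El ℓ y) :
    ∃ x : ℝ, 0 ≤ x ∧ ∑ j ∈ (Finset.range (ℓ ^ r)).filter (fun j => ¬ ℓ ∣ j),
      ∑ᶠ (s : G) (_ : s ∈ Cu y ∧ Reg ℓ s), ∑ᶠ χ ∈ IrrE M e,
        χ (y ^ N ^ j * s) * starRingEnd ℂ (χ (y * s)) = (x : ℂ) := by
  classical
  by_cases hc : ∃ g : G, g * y * g⁻¹ = y ^ N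
  · obtain ⟨g, hg⟩ := hc
    have hF : GoodF ℓ (FF M) := H50.fld ℓ Fact.out M hM
    have hid : IsIdem (fun t : Cu y => e t) := T3.H98.idem_cu hF he hy
    have hix : Ix (Cu y) (H75.ext0 (Cu y) (fun t : Cu y => e t)) := by
      refine ⟨ext0_supp _ _, ?_⟩
      have e1 : (fun t : Cu y => H75.ext0 (Cu y) (fun t : Cu y => e t) t) = fun t : Cu y => e t :=
        funext fun t => ext0_apply _ _ t
      rw [e1]
      exact hid
    have hb : ∀ x : G, x * y = y * x ↔ x * y ^ N = y ^ N * x := by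
      intro x
      constructor
      · intro h
        exact (show Commute x y from h).pow_right N
      · intro h
        have h1 : Commute x (y ^ N) := h
        have h2 := h1.pow_right (N ^ (ℓ ^ r - 1))
        have h3 : (y ^ N) ^ N ^ (ℓ ^ r - 1) = y := by
          have h4 : 1 ≤ ℓ ^ r := Nat.one_le_pow _ _ (Fact.out : ℓ.Prime).pos
          have h5 := pow_pow_add y N 1 (ℓ ^ r - 1)
          rw [pow_one] at h5
          rw [h5, Nat.add_sub_cancel' h4, hper]
        rw [h3] at h2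
        exact h2
    have hmem : ∀ x : G, x ∈ Cu y ↔ g * x * g⁻¹ ∈ Cu y := by
      intro x
      rw [Subgroup.mem_centralizer_singleton_iff, Subgroup.mem_centralizer_singleton_iff,
        hb (g * x * g⁻¹), ← hg]
      constructor
      · intro h
        calc g * x * g⁻¹ * (g * y * g⁻¹) = g * (x * y) * g⁻¹ := by group
          _ = g * (y * x) * g⁻¹ := by rw [h]
          _ = _ := by group
      · intro h
        have h1 : g * (x * y) * g⁻¹ = g * (y * x) * g⁻¹ := by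
          calc g * (x * y) * g⁻¹ = g * x * g⁻¹ * (g * y * g⁻¹) := by group
            _ = g * y * g⁻¹ * (g * x * g⁻¹) := h
            _ = _ := by group
        exact mul_left_cancel (mul_right_cancel h1)
    have hnorm : g ∈ Subgroup.normalizer (Cu y : Set G) := by
      rw [Subgroup.mem_normalizer_iff]
      exact hmem
    have hcj : cj g (H75.ext0 (Cu y) (fun t : Cu y => e t)) =
        H75.ext0 (Cu y) (fun t : Cu y => e t) := by
      rw [cj_eq_iff]
      intro x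
      by_cases hx : x ∈ Cu y
      · have hx' := (hmem x).1 hx
        have e1 := ext0_apply (Cu y) (fun t : Cu y => e t) ⟨x, hx⟩
        have e2 := ext0_apply (Cu y) (fun t : Cu y => e t) ⟨g * x * g⁻¹, hx'⟩
        simp only at e1 e2
        rw [e1, e2]
        exact he.1 x g
      · have hx' : g * x * g⁻¹ ∉ Cu y := fun h => hx ((hmem x).2 h)
        rw [ext0_supp _ _ x hx, ext0_supp _ _ _ hx']
    have hgr : g ^ ℓ ^ r ∈ Cu y := by
      rw [Subgroup.mem_centralizer_singleton_iff]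
      have h1 := conj_pow_pow hg (ℓ ^ r)
      rw [hper] at h1
      exact mul_inv_eq_iff_eq_mul.1 h1
    obtain ⟨x, hx0, hx⟩ := cys ℓ M hM G (Cu y) _ hix g hnorm hcj r hr hgr
    refine ⟨(Nat.card (Cu y) : ℝ) * x, by positivity, ?_⟩
    push_cast
    rw [← hx, Finset.mul_sum]
    refine Finset.sum_congr rfl fun j _ => ?_
    rw [tw_ext]
    exact twy ℓ M hM G e he y hy1 hy (N ^ j) (g ^ j) (conj_pow_pow hg j)
  · refine ⟨0, le_rfl, ?_⟩
    rw [Complex.ofReal_zero]
    refine Finset.sum_eq_zero fun j hj => ?_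
    rw [Finset.mem_filter] at hj
    refine fxy ℓ M hM G (N ^ j) (Nat.Coprime.pow_left j hN) e he y hy1 hy ?_
    intro b _ _ g hg
    exact absurd hg (not_conj hr hj.2 hper hc g)

theorem fx5_core (ada : AdaStmt) (wbo : WboStmt) (idm : KF.IdmStmt) (prt : PrtStmt)
    (fxy : T2.FxyStmt) (lrk : LrkStmt) (twy : TwyStmt) (cys : CysStmt) : Fx5Stmt := by
  intro ℓ _ M _ hM G _ _ N hN e he
  classical
  have := Fintype.ofFinite G
  have hfi : (Irr G).Finite := irr_finite'
  have hirr : IrrE M e ⊆ Irr G := fun _ h => h.1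
  have := (hfi.subset hirr).fintype
  have hG0 : (Nat.card G : ℂ) ≠ 0 := by exact_mod_cast Nat.card_pos.ne'
  have hG1 : (0 : ℝ) < Nat.card G := by exact_mod_cast Nat.card_pos
  obtain ⟨N₀, hN1, hN2⟩ := prt ℓ G
  obtain ⟨r, hr, hper⟩ := hN.per
  obtain ⟨J, hJ⟩ : ∃ J : Finset ℕ, J = (Finset.range (ℓ ^ r)).filter (fun j => ¬ ℓ ∣ j) :=
    ⟨_, rfl⟩
  have hJpos : 0 < J.card := by
    rw [Finset.card_pos]
    refine ⟨1, ?_⟩
    rw [hJ, Finset.mem_filter, Finset.mem_range]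
    exact ⟨Nat.one_lt_pow hr.ne' (Fact.out : ℓ.Prime).one_lt, (Fact.out : ℓ.Prime).one_lt.ne' ∘
      Nat.dvd_one.1⟩
  -- the summands
  obtain ⟨T, hT⟩ : ∃ T : ℕ → G → ℂ, ∀ j g,
      T j g = ∑ χ : IrrE M e, (χ : G → ℂ) (g ^ N ^ j) * starRingEnd ℂ ((χ : G → ℂ) g) :=
    ⟨_, fun _ _ => rfl⟩
  have hfm : ∀ F : (G → ℂ) → ℂ, ∑ᶠ χ ∈ IrrE M e, F χ = ∑ χ : IrrE M e, F χ := fun F => by
    rw [← finsum_eq_sum_of_fintype, finsum_set_coe_eq_finsum_mem]
  -- the number of the fixed characters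
  have hA : ∀ j ∈ J, (Nat.card G : ℂ) * ((Rf M N e).ncard : ℂ) = ∑ g, T j g := by
    intro j hj
    rw [hJ, Finset.mem_filter] at hj
    have hrt := T3.H23.rtc' ada wbo idm ℓ M hM G (N ^ j) (Nat.Coprime.pow_left j hN.cop)
      (fun g hg => reg_pow hN.reg j g hg) e he
    have h1 : ∀ χ : IrrE M e, ∑ g, (χ : G → ℂ) (g ^ N ^ j) * starRingEnd ℂ ((χ : G → ℂ) g) =
        (Nat.card G : ℂ) * if (∀ g, (χ : G → ℂ) (g ^ N) = (χ : G → ℂ) g) then 1 else 0 := by
      intro χ
      by_cases h : ∀ g, (χ : G → ℂ) (g ^ N) = (χ : G → ℂ) g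
      · rw [if_pos h]
        have h2 := K9.H11.ipn_self (hirr χ.2)
        rw [K9.H11.ipn_eq] at h2
        have h' := (fix_iff hr hj.2 hper (χ : G → ℂ)).2 h
        simp only [h']
        rw [← h2, mul_inv_cancel_left₀ hG0]
      · rw [if_neg h]
        have h2 := K9.H11.ipn_ne (hrt.1 χ (hirr χ.2)) (hirr χ.2)
          (fun h3 => h ((fix_iff hr hj.2 hper (χ : G → ℂ)).1 (congrFun h3)))
        rw [K9.H11.ipn_eq] at h2
        rw [mul_zero]
        exact (mul_eq_zero.1 h2).resolve_left (inv_ne_zero hG0)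
    simp only [hT]
    rw [Finset.sum_comm]
    simp only [h1]
    rw [← Finset.mul_sum, Finset.sum_ite, Finset.sum_const_zero, add_zero, Finset.sum_const,
      nsmul_eq_mul, mul_one]
    congr 2
    have h3 : Rf M N e =
        Subtype.val '' ((Finset.univ.filter (fun χ : IrrE M e =>
          ∀ g, (χ : G → ℂ) (g ^ N) = (χ : G → ℂ) g) : Finset (IrrE M e)) : Set (IrrE M e)) := by
      ext χ
      constructor
      · rintro ⟨h4, h5⟩
        exact ⟨⟨χ, h4⟩, by simpa using h5, rfl⟩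
      · rintro ⟨χ', h4, rfl⟩
        exact ⟨χ'.2, by simpa using h4⟩
    rw [h3, Set.ncard_image_of_injective _ Subtype.val_injective, Set.ncard_coe_finset]
  -- the contribution of the `ℓ`-element `y`
  obtain ⟨P, hP⟩ : ∃ P : G → ℂ, ∀ y, P y = ∑ j ∈ J,
      ∑ g ∈ Finset.univ.filter (fun g : G => (g ^ N₀)⁻¹ * g = y), T j g := ⟨_, fun _ => rfl⟩
  have hfib : ∑ j ∈ J, ∑ g, T j g = ∑ y : G, P y := by
    have h0 : ∑ y : G, P y = ∑ j ∈ J, ∑ y : G,
        ∑ g ∈ Finset.univ.filter (fun g : G => (g ^ N₀)⁻¹ * g = y), T j g := by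
      simp only [hP]
      exact Finset.sum_comm
    rw [h0]
    exact Finset.sum_congr rfl fun j _ =>
      (Finset.sum_fiberwise Finset.univ (fun g : G => (g ^ N₀)⁻¹ * g) (T j)).symm
  have hpow : ∀ (j : ℕ) (y s : G), s ∈ Cu y ∧ Reg ℓ s → (y * s) ^ N ^ j = y ^ N ^ j * s := by
    intro j y s hs
    have hc : Commute s y := Subgroup.mem_centralizer_singleton_iff.1 hs.1
    rw [hc.symm.mul_pow, reg_pow hN.reg j s hs.2]
  have hy0 : ∀ y : G, y ≠ 1 → 0 ≤ (P y).re := by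
    intro y hy1
    by_cases hy : El ℓ y
    · obtain ⟨x, hx0, hx⟩ := contr fxy twy cys ℓ M hM G N hN.cop r hr hper e he y hy1 hy
      have h4 : P y = (x : ℂ) := by
        rw [← hx, hP, ← hJ]
        refine Finset.sum_congr rfl fun j _ => ?_
        rw [T2.H67.fibre hN1 hN2 (T j) y hy, T2.H67.fs_filter]
        refine Finset.sum_congr rfl fun s hs => ?_
        rw [Finset.mem_filter] at hs
        rw [hT, hfm, hpow j y s hs.2]
      rw [h4, Complex.ofReal_re]
      exact hx0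
    · have h3 : Finset.univ.filter (fun g : G => (g ^ N₀)⁻¹ * g = y) = ∅ := by
        rw [Finset.filter_eq_empty_iff]
        intro g _ hg
        exact hy (hg ▸ (hN1 g).2)
      rw [hP]
      simp [h3]
  have h1 : P 1 = (J.card : ℂ) * ((Nat.card G : ℂ) * (ln e : ℂ)) := by
    have hE1 : El ℓ (1 : G) := ⟨0, one_pow _⟩
    rw [hP, ← nsmul_eq_mul, ← Finset.sum_const]
    refine Finset.sum_congr rfl fun j _ => ?_
    rw [T2.H67.fibre hN1 hN2 (T j) 1 hE1, lrk ℓ M hM G e he, T2.H67.fs_filter,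
      mul_inv_cancel_left₀ hG0]
    have h3 : Finset.univ.filter (fun s : G => s ∈ Cu (1 : G) ∧ Reg ℓ s) =
        Finset.univ.filter (fun s : G => Reg ℓ s) := by
      apply Finset.filter_congr
      intro s _
      constructor
      · exact fun h => h.2
      · intro h
        refine ⟨?_, h⟩
        rw [Subgroup.mem_centralizer_singleton_iff, mul_one, one_mul]
    rw [h3]
    refine Finset.sum_congr rfl fun s hs => ?_
    rw [Finset.mem_filter] at hs
    rw [hT, hfm, one_mul, reg_pow hN.reg j s hs.2]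
  have htot : (J.card : ℂ) * ((Nat.card G : ℂ) * ((Rf M N e).ncard : ℂ)) = ∑ y : G, P y := by
    rw [← hfib, ← nsmul_eq_mul, ← Finset.sum_const]
    exact Finset.sum_congr rfl fun j hj => hA j hj
  have hmain : (J.card : ℝ) * ((Nat.card G : ℝ) * (ln e : ℝ)) ≤
      (J.card : ℝ) * ((Nat.card G : ℝ) * ((Rf M N e).ncard : ℝ)) := by
    have h3 : ((J.card : ℂ) * ((Nat.card G : ℂ) * ((Rf M N e).ncard : ℂ))).re =
        (J.card : ℝ) * ((Nat.card G : ℝ) * ((Rf M N e).ncard : ℝ)) := by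
      norm_cast
    have h4 : ((J.card : ℂ) * ((Nat.card G : ℂ) * (ln e : ℂ))).re =
        (J.card : ℝ) * ((Nat.card G : ℝ) * (ln e : ℝ)) := by
      norm_cast
    have h5 : 0 ≤ (P 1).re := by
      rw [h1, h4]
      positivity
    have hall : ∀ y : G, 0 ≤ (P y).re := by
      intro y
      by_cases hy : y = 1
      · rw [hy]; exact h5
      · exact hy0 y hy
    rw [← h3, htot, Complex.re_sum, ← h4, ← h1]
    exact Finset.single_le_sum (f := fun y : G => (P y).re) (fun y _ => hall y)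
      (Finset.mem_univ 1)
  have h5 := le_of_mul_le_mul_left (le_of_mul_le_mul_left hmain (by exact_mod_cast hJpos)) hG1
  exact_mod_cast h5

/-- FX5 -/
theorem fx5 (fxy : T2.FxyStmt) (lrk : LrkStmt) (twy : TwyStmt) (cys : CysStmt) : Fx5Stmt :=
  fx5_core (K9.H25.ada K9.H20.adp) (K9.H82W.wbo (K9.H82.trb K9.H53.tra)) KF.H25.idm K9.H27.prt
    fxy lrk twy cys

end Pool.Agent.PP.T5.H46
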